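import Mathlib

open Set Filter Topology TopologicalSpace BoundedContinuousFunction

namespace Pool.Agent.H.MP_94cdcb_an

section general
variable {X : Type} [NormedAddCommGroup X] [NormedSpace ℝ X]

def Slice (A : Set X) (f : X →L[ℝ] ℝ) (α : ℝ) : Set X := {x ∈ A | sSup (f '' A) - α < f x}

def SCD (A : Set X) : Prop := ∃ (f : ℕ → X →L[ℝ] ℝ) (α : ℕ → ℝ), (∀ n, f n ≠ 0 ∧ 0 < α n) ∧
  ∀ B : Set X, (∀ n, (B ∩ Slice A (f n) (α n)).Nonempty) → A ⊆ closure (convexHull ℝ B)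

variable {ι : Type} [Countable ι] {r : ι → X}

lemma scd_sub (h : ∀ i, ∃ (ψ : X →L[ℝ] ℝ) (γ : ℝ), ψ ≠ 0 ∧ 0 < γ ∧ ∀ j, j ≠ i → ψ (r j) + γ ≤ ψ (r i))
    {A : Set X} (hA : A ⊆ range r) (hne : A.Nonempty) : SCD A := by
  choose ψ γ h1 h2 h3 using h
  obtain ⟨g, hg⟩ := ((countable_range r).mono hA).exists_eq_range hne
  have : ∀ n, ∃ i, r i = g n := fun n => hA (hg ▸ mem_range_self n)
  choose i hi using this
  refine ⟨fun n => ψ (i n), fun n => γ (i n), fun n => ⟨h1 _, h2 _⟩, fun B hB => ?_⟩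
  intro x hx
  obtain ⟨n, rfl⟩ : x ∈ range g := hg ▸ hx
  obtain ⟨y, y1, y2, y3⟩ := hB n
  obtain ⟨j, rfl⟩ := hA y2
  have hb : BddAbove (ψ (i n) '' A) := by
    refine ⟨ψ (i n) (r (i n)), ?_⟩
    rintro _ ⟨z, hz, rfl⟩
    obtain ⟨l, rfl⟩ := hA hz
    by_cases e : l = i n
    · rw [e]
    · linarith [h3 _ l e, h2 (i n)]
  have h4 : ψ (i n) (r (i n)) ≤ sSup (ψ (i n) '' A) := le_csSup hb ⟨_, hi n ▸ hx, rfl⟩
  have e : j = i n := by
    by_contra e
    have := h3 _ j e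
    beta_reduce at y3
    linarith
  rw [← hi n, ← e]
  exact subset_closure (subset_convexHull ℝ _ y1)

lemma scd_hull [Nonempty ι] {R : ℝ} (hR : ∀ i j, ‖r j - r i‖ ≤ R)
    (h : ∀ i, ∃ (ψ : X →L[ℝ] ℝ) (γ : ℝ), ψ ≠ 0 ∧ 0 < γ ∧ ∀ j, j ≠ i → ψ (r j) + γ ≤ ψ (r i)) :
    SCD (closure (convexHull ℝ (range r))) := by
  choose ψ γ h1 h2 h3 using h
  obtain ⟨en, hen⟩ := exists_surjective_nat (ι × ℕ)
  have hR0 : 0 ≤ R := (norm_nonneg _).trans (hR (Classical.arbitrary ι) (Classical.arbitrary ι))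
  have key : ∀ i, ∀ u ∈ closure (convexHull ℝ (range r)),
      γ i * ‖u - r i‖ ≤ R * (ψ i (r i) - ψ i u) ∧ ψ i u ≤ ψ i (r i) := by
    intro i
    refine closure_minimal (t := {u | γ i * ‖u - r i‖ ≤ R * (ψ i (r i) - ψ i u) ∧ ψ i u ≤ ψ i (r i)})
      (convexHull_min ?_ ?_) ?_
    rotate_left 2
    · rw [ofPred_and]
      exact (isClosed_le (by fun_prop) (by fun_prop)).inter (isClosed_le (by fun_prop) (by fun_prop))
    · rintro _ ⟨j, rfl⟩
      by_cases e : j = i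
      · simp [e]
      · have := h3 i j e; have := hR i j; have := h2 i
        exact ⟨by nlinarith, by linarith⟩
    · rintro x ⟨x1, x2⟩ y ⟨y1, y2⟩ a b ha hb hab
      have e1 : a • x + b • y - r i = a • (x - r i) + b • (y - r i) := by
        rw [smul_sub, smul_sub, sub_add_sub_comm, ← add_smul, hab, one_smul]
      have e2 := norm_add_le (a • (x - r i)) (b • (y - r i))
      rw [← e1, norm_smul, norm_smul, Real.norm_of_nonneg ha, Real.norm_of_nonneg hb] at e2
      simp only [mem_ofPred_eq, map_add, map_smul, smul_eq_mul]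
      have e3 := mul_le_mul_of_nonneg_left e2 (h2 i).le
      have e4 := mul_le_mul_of_nonneg_left x1 ha
      have e5 := mul_le_mul_of_nonneg_left y1 hb
      obtain rfl : b = 1 - a := by linarith
      exact ⟨by nlinarith, by nlinarith⟩
  refine ⟨fun n => ψ (en n).1, fun n => γ (en n).1 / (((en n).2 : ℝ) + 1),
    fun n => ⟨h1 _, by have := h2 (en n).1; positivity⟩, fun B hB => ?_⟩
  refine closure_minimal (convexHull_min ?_ (convex_convexHull ℝ B).closure) isClosed_closure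
  rintro _ ⟨i, rfl⟩
  refine closure_mono (subset_convexHull ℝ B) (Metric.mem_closure_iff.2 fun ε hε => ?_)
  obtain ⟨m, hm⟩ := exists_nat_one_div_lt (show 0 < ε / (R + 1) by positivity)
  obtain ⟨n, hn⟩ := hen (i, m)
  obtain ⟨y, y1, y2, y3⟩ := hB n
  simp only [hn] at y3
  refine ⟨y, y1, ?_⟩
  have h4 : ψ i (r i) ≤ sSup (ψ i '' closure (convexHull ℝ (range r))) :=
    le_csSup ⟨ψ i (r i), by rintro _ ⟨z, hz, rfl⟩; exact (key i z hz).2⟩
      ⟨_, subset_closure (subset_convexHull ℝ _ (mem_range_self i)), rfl⟩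
  have h5 := (key i y y2).1
  have h6 : R * (ψ i (r i) - ψ i y) ≤ R * (γ i * (1 / ((m:ℝ) + 1))) :=
    mul_le_mul_of_nonneg_left (by rw [mul_one_div]; linarith) hR0
  have h7 : ‖y - r i‖ ≤ R * (1 / ((m:ℝ) + 1)) :=
    le_of_mul_le_mul_left (a := γ i) (by linarith) (h2 i)
  rw [lt_div_iff₀ (by positivity)] at hm
  rw [dist_comm, dist_eq_norm]
  have : (0:ℝ) < 1 / ((m:ℝ) + 1) := by positivity
  nlinarith

lemma weak_mem {U : Set X} (h1 : Convex ℝ U) (h2 : IsClosed U) {u : ℕ → X} {x : X} (hu : ∀ j, u j ∈ U)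
    (h : ∀ ψ : X →L[ℝ] ℝ, Tendsto (fun j => ψ (u j)) atTop (𝓝 (ψ x))) : x ∈ U := by
  by_contra hx
  obtain ⟨f, c, f1, f2⟩ := geometric_hahn_banach_point_closed h1 h2 hx
  exact absurd (ge_of_tendsto' (h f) fun j => (f2 _ (hu j)).le) (not_le.2 f1)

end general

abbrev Δ : Type := ℕ → Bool
abbrev Y : Type := Δ →ᵇ ℝ
abbrev Cl : Type := Clopens Δ

instance : Countable Cl := Clopens.countable_iff_secondCountable.2 inferInstance

noncomputable def χ (E : Cl) : Y := BoundedContinuousFunction.indicator E E.isClopen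

open Classical in
lemma χ_apply (E : Cl) (k : Δ) : χ E k = if k ∈ E then 1 else 0 := by
  simp [χ, Set.indicator]

lemma split (C : Cl) (hC : (C : Set Δ).Nonempty) : ∃ D : ℕ → Cl, (∀ j, (D j : Set Δ).Nonempty) ∧
    (∀ j, (D j : Set Δ) ⊆ C) ∧ ∀ j l k, k ∈ D j → k ∈ D l → j = l := by
  obtain ⟨w, hw⟩ := hC
  obtain ⟨_, ⟨w', m, rfl⟩, h1, h2⟩ := (PiNat.isTopologicalBasis_cylinders (fun _ : ℕ => Bool)
    ).exists_subset_of_mem_open hw C.isOpen
  have hcl : ∀ (x : Δ) n, IsClopen (PiNat.cylinder x n) := fun x n =>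
    ⟨by rw [PiNat.cylinder_eq_pi]; exact isClosed_set_pi fun _ _ => isClosed_singleton,
      PiNat.isOpen_cylinder _ x n⟩
  refine ⟨fun j => ⟨_, hcl (Function.update w (m + j) (!w (m + j))) (m + j + 1)⟩,
    fun j => ⟨_, PiNat.self_mem_cylinder _ _⟩, fun j k hk => h2 ?_, fun j l k h3 h4 => ?_⟩
  · refine PiNat.mem_cylinder_iff.2 fun i hi => ?_
    rw [PiNat.mem_cylinder_iff.1 hk i (by omega), Function.update_of_ne (by omega)]
    exact PiNat.mem_cylinder_iff.1 h1 i hi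
  · have key : ∀ j l : ℕ, j < l →
        k ∈ PiNat.cylinder (Function.update w (m + j) (!w (m + j))) (m + j + 1) →
        k ∈ PiNat.cylinder (Function.update w (m + l) (!w (m + l))) (m + l + 1) → False := by
      intro j l hjl a b
      have a1 := PiNat.mem_cylinder_iff.1 a (m + j) (by omega)
      have b1 := PiNat.mem_cylinder_iff.1 b (m + j) (by omega)
      rw [Function.update_self] at a1
      rw [Function.update_of_ne (by omega), a1] at b1
      simp at b1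
    rcases lt_trichotomy j l with h | h | h
    exacts [(key j l h h3 h4).elim, h, (key l j h h4 h3).elim]

lemma pick (P : ℕ → Cl → Prop)
    (h : ∀ n (D : ℕ → Cl), (∀ j l k, k ∈ D j → k ∈ D l → j = l) → ∃ j, P n (D j)) :
    ∃ k : Δ, ∀ n, ∃ D, P n D ∧ k ∈ D := by
  have step : ∀ n (C : {C : Cl // (C : Set Δ).Nonempty}), ∃ C' : {C : Cl // (C : Set Δ).Nonempty},
      P n C'.1 ∧ (C'.1 : Set Δ) ⊆ C.1 := by
    intro n C
    obtain ⟨D, d1, d2, d3⟩ := split C.1 C.2
    obtain ⟨j, hj⟩ := h n D d3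
    exact ⟨⟨D j, d1 j⟩, hj, d2 j⟩
  choose g g1 g2 using step
  let s : ℕ → {C : Cl // (C : Set Δ).Nonempty} := fun n =>
    Nat.rec ⟨⊤, univ_nonempty⟩ (fun n C => g n C) n
  obtain ⟨k, hk⟩ := IsCompact.nonempty_iInter_of_sequence_nonempty_isCompact_isClosed
    (fun n => ((s n).1 : Set Δ)) (fun n => g2 n (s n)) (fun n => (s n).2)
    (s 0).1.isClosed.isCompact fun n => (s n).1.isClosed
  exact ⟨k, fun n => ⟨_, g1 n (s n), mem_iInter.1 hk (n + 1)⟩⟩

lemma wnull {D : ℕ → Cl} (hD : ∀ j l k, k ∈ D j → k ∈ D l → j = l) (h : Y) (φ : Y →L[ℝ] ℝ) :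
    Tendsto (fun j => φ (χ (D j) * h)) atTop (𝓝 0) := by
  classical
  refine Summable.tendsto_atTop_zero (Summable.of_abs (summable_of_sum_le (c := ‖φ‖ * ‖h‖)
    (fun _ => abs_nonneg _) fun A => ?_))
  let ε : ℕ → ℝ := fun j => if 0 ≤ φ (χ (D j) * h) then 1 else -1
  have h1 : ∑ j ∈ A, |φ (χ (D j) * h)| = φ (∑ j ∈ A, ε j • (χ (D j) * h)) := by
    rw [map_sum]
    refine Finset.sum_congr rfl fun j _ => ?_
    rw [map_smul, smul_eq_mul]
    simp only [ε]
    split_ifs with e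
    · rw [abs_of_nonneg e, one_mul]
    · rw [abs_of_neg (not_le.1 e), neg_one_mul]
  rw [h1]
  refine (le_abs_self _).trans ((φ.le_opNorm _).trans (mul_le_mul_of_nonneg_left ?_ (norm_nonneg _)))
  refine (BoundedContinuousFunction.norm_le (norm_nonneg _)).2 fun k => ?_
  rw [BoundedContinuousFunction.sum_apply]
  by_cases e : ∃ j ∈ A, k ∈ D j
  · obtain ⟨j, j1, j2⟩ := e
    rw [Finset.sum_eq_single j (fun l _ hl => by
      simp [χ_apply, show k ∉ D l from fun e => hl (hD _ _ _ e j2)]) (fun e => absurd j1 e)]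
    have : |ε j| = 1 := by simp only [ε]; split_ifs <;> simp
    simpa [χ_apply, j2, this] using h.norm_coe_le_norm k
  · push Not at e
    rw [Finset.sum_eq_zero fun l hl => by simp [χ_apply, e l hl]]
    simp

noncomputable def idx : Cl → ℕ := (exists_injective_nat Cl).choose

lemma idx_inj : Function.Injective idx := (exists_injective_nat Cl).choose_spec

noncomputable def eps (E : Cl) : ℝ := 1 / ((idx E : ℝ) + 1)

lemma eps_pos (E : Cl) : 0 < eps E := by unfold eps; positivity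

lemma eps_le_one (E : Cl) : eps E ≤ 1 := by
  unfold eps; rw [div_le_one (by positivity)]; linarith [Nat.cast_nonneg (α := ℝ) (idx E)]

lemma expose (E : Cl) : ∃ (φ : Y →L[ℝ] ℝ) (γ : ℝ), 0 < γ ∧ γ ≤ 1 ∧ (∀ E', φ (χ E') ≤ φ (χ E)) ∧
    ∀ E', E' ≠ E → eps E' + φ (χ E') + γ ≤ eps E + φ (χ E) := by
  classical
  have h1 : ∀ E' : Cl, ∃ k, E' ≠ E → ¬ (k ∈ E' ↔ k ∈ E) := by
    intro E'
    by_cases e : E' = E
    · exact ⟨default, fun h => absurd e h⟩
    · by_contra! h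
      exact e (SetLike.ext fun k => (h k).2)
  choose k hk using h1
  let T := ((finite_Iio (idx E)).preimage idx_inj.injOn).toFinset
  let φ : Y →L[ℝ] ℝ := ∑ E' ∈ T, (if k E' ∈ E then (1:ℝ) else -1) • evalCLM ℝ (k E')
  have hφ : ∀ y, φ y = ∑ E' ∈ T, (if k E' ∈ E then (1:ℝ) else -1) * y (k E') := by
    intro y
    simp only [φ, _root_.sum_apply, _root_.smul_apply, smul_eq_mul]
    rfl
  have h2 : ∀ E' F : Cl, (if k F ∈ E then (1:ℝ) else -1) * χ E' (k F) ≤
      (if k F ∈ E then (1:ℝ) else -1) * χ E (k F) := by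
    intro E' F
    simp only [χ_apply]; split_ifs <;> norm_num
  have h3 : ∀ E', φ (χ E') ≤ φ (χ E) := fun E' => by
    rw [hφ, hφ]; exact Finset.sum_le_sum fun F _ => h2 E' F
  have hn : (0:ℝ) ≤ idx E := Nat.cast_nonneg _
  have g1 : 1 / ((idx E : ℝ) + 2) < eps E := one_div_lt_one_div_of_lt (by positivity) (by linarith)
  have g2 : (0:ℝ) < 1 / ((idx E : ℝ) + 2) := by positivity
  refine ⟨φ, eps E - 1 / ((idx E : ℝ) + 2), by linarith, by linarith [eps_le_one E], h3,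
    fun E' hE => ?_⟩
  rcases lt_or_gt_of_ne (idx_inj.ne hE) with h | h
  · have hT : E' ∈ T := by simpa [T] using h
    have : φ (χ E') + 1 ≤ φ (χ E) := by
      rw [hφ, hφ, ← Finset.add_sum_erase _ _ hT, ← Finset.add_sum_erase _ _ hT]
      have a1 := Finset.sum_le_sum fun F (_ : F ∈ T.erase E') => h2 E' F
      have a2 : (if k E' ∈ E then (1:ℝ) else -1) * χ E' (k E') + 1 ≤
          (if k E' ∈ E then (1:ℝ) else -1) * χ E (k E') := by
        have := hk E' hE
        simp only [χ_apply]; split_ifs <;> first | tauto | norm_num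
      linarith
    linarith [eps_le_one E']
  · have : eps E' ≤ 1 / ((idx E : ℝ) + 2) := by
      refine one_div_le_one_div_of_le (by positivity) ?_
      have : ((idx E + 1 : ℕ) : ℝ) ≤ idx E' := by exact_mod_cast h
      push_cast at this; linarith
    linarith [h3 E']

end Pool.Agent.H.MP_94cdcb_an
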