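import Mathlib
import Pool.Agent.H.MP_94cdcb_an.A

open Set Filter Topology TopologicalSpace BoundedContinuousFunction Pointwise

namespace Pool.Agent.H.MP_94cdcb_an

abbrev X : Type := ℝ × ℝ × Y

noncomputable def p (E : Cl) : X := (1, eps E, χ E)
noncomputable def q (E : Cl) : X := (0, -eps E, χ E)
noncomputable def r : Cl ⊕ Cl → X := Sum.elim p q

lemma χ_norm (E : Cl) : ‖χ E‖ ≤ 1 :=
  (BoundedContinuousFunction.norm_le zero_le_one).2 fun k => by
    rw [χ_apply]; split_ifs <;> simp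

lemma r_norm (i : Cl ⊕ Cl) : ‖r i‖ ≤ 1 := by
  rcases i with E | E <;>
    simp [r, p, q, Prod.norm_def, χ_norm, abs_of_pos (eps_pos E), eps_le_one]

noncomputable def lin (a : ℝ) (φ : Y →L[ℝ] ℝ) : X →L[ℝ] ℝ :=
  a • ContinuousLinearMap.fst ℝ ℝ (ℝ × Y) +
    (a • ContinuousLinearMap.fst ℝ ℝ Y + φ.comp (ContinuousLinearMap.snd ℝ ℝ Y)).comp
      (ContinuousLinearMap.snd ℝ ℝ (ℝ × Y))

lemma lin_apply (a : ℝ) (φ : Y →L[ℝ] ℝ) (x : X) : lin a φ x = a * x.1 + (a * x.2.1 + φ x.2.2) := rfl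

lemma r_exp (i : Cl ⊕ Cl) : ∃ (ψ : X →L[ℝ] ℝ) (γ : ℝ), ψ ≠ 0 ∧ 0 < γ ∧
    ∀ j, j ≠ i → ψ (r j) + γ ≤ ψ (r i) := by
  have hne : ∀ a φ, a ≠ 0 → lin a φ ≠ 0 := fun a φ ha h => by
    have := lin_apply a φ (1, 0, 0)
    rw [h] at this
    simp at this
    exact ha this.symm
  rcases i with E | E <;> obtain ⟨φ, γ, g1, g2, g3, g4⟩ := expose E
  · refine ⟨lin 1 φ, γ, hne _ _ one_ne_zero, g1, ?_⟩
    rintro (F | F) h <;> simp only [lin_apply, r, p, q, Sum.elim_inl, Sum.elim_inr]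
    · linarith [g4 F fun e => h (by rw [e])]
    · linarith [g3 F, eps_pos E, eps_pos F]
  · refine ⟨lin (-1) φ, γ, hne _ _ (by norm_num), g1, ?_⟩
    rintro (F | F) h <;> simp only [lin_apply, r, p, q, Sum.elim_inl, Sum.elim_inr]
    · linarith [g3 F, eps_pos E, eps_pos F]
    · linarith [g4 F fun e => h (by rw [e])]

lemma χ_sup (E D : Cl) : χ (E ⊔ D) = χ E + χ D * (1 - χ E) := by
  ext k
  have : k ∈ E ⊔ D ↔ k ∈ E ∨ k ∈ D := Iff.rfl
  by_cases a : k ∈ E <;> by_cases b : k ∈ D <;> simp [χ_apply, this, a, b]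

lemma eps_sup {D : ℕ → Cl} (hD : ∀ j l k, k ∈ D j → k ∈ D l → j = l) (E : Cl) :
    ∀ᶠ j in atTop, eps (E ⊔ D j) ≤ eps E := by
  have h1 : {j | idx (E ⊔ D j) < idx E}.Finite := by
    refine Finite.of_finite_image (f := fun j => idx (E ⊔ D j)) ((finite_Iio (idx E)).subset ?_) ?_
    · rintro _ ⟨j, hj, rfl⟩; exact hj
    · intro j hj l _ e
      by_contra hne
      have e1 : E ⊔ D j = E ⊔ D l := idx_inj e
      have e2 : E ⊔ D j = E := sup_eq_left.2 fun k hk => by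
        have : k ∈ E ⊔ D l := e1 ▸ (Or.inr hk : k ∈ E ⊔ D j)
        exact this.resolve_right fun h => hne (hD _ _ _ hk h)
      simp [e2] at hj
  rw [← Nat.cofinite_eq_atTop]
  refine (h1.compl_mem_cofinite : _ ∈ _) |> fun h => mem_of_superset h fun j hj => ?_
  have : idx E ≤ idx (E ⊔ D j) := not_lt.1 hj
  have : (idx E : ℝ) ≤ idx (E ⊔ D j) := by exact_mod_cast this
  exact one_div_le_one_div_of_le (a := (idx E : ℝ) + 1) (by positivity) (by linarith)

noncomputable def iY : Y →L[ℝ] X := (ContinuousLinearMap.inr ℝ ℝ (ℝ × Y)).comp (ContinuousLinearMap.inr ℝ ℝ Y)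

lemma iY_apply (y : Y) : iY y = (0, 0, y) := rfl

lemma not_scd : ¬ SCD (range p + range q) := by
  rintro ⟨f, α, h1, h2⟩
  obtain ⟨k, hk⟩ := pick (fun n D => ∃ x ∈ Slice (range p + range q) (f n) (α n),
      ∀ k ∈ D, 1 ≤ x.2.2 k) (by
    intro n D hD
    obtain ⟨_, ⟨_, ⟨_, ⟨E, rfl⟩, _, ⟨F, rfl⟩, rfl⟩, rfl⟩, h⟩ := exists_lt_of_lt_csSup
      (s := f n '' (range p + range q)) (((range_nonempty p).add (range_nonempty q)).image _)
      (sub_lt_self _ (h1 n).2)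
    beta_reduce at h
    have t : ∀ y, Tendsto (fun j => f n (p E + q F) + f n (iY (χ (D j) * y))) atTop
        (𝓝 (f n (p E + q F))) := fun y => by
      simpa using (wnull hD y ((f n).comp iY)).const_add (f n (p E + q F))
    have h0 : ∀ E k, 0 ≤ χ E k := fun E k => by rw [χ_apply]; split_ifs <;> norm_num
    rcases le_total 0 (f n (0, 1, 0)) with g | g
    · obtain ⟨j, j1, j2⟩ := (((t (1 - χ F)).eventually (lt_mem_nhds h)).and (eps_sup hD F)).exists
      refine ⟨j, p E + q (F ⊔ D j), ⟨add_mem_add (mem_range_self _) (mem_range_self _), ?_⟩,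
        fun k hk => ?_⟩
      · have : p E + q (F ⊔ D j) = p E + q F + iY (χ (D j) * (1 - χ F)) +
            (eps F - eps (F ⊔ D j)) • ((0, 1, 0) : X) := by
          simp only [p, q, iY_apply, χ_sup, Prod.mk_add_mk, Prod.smul_mk, smul_eq_mul, smul_zero]
          congr 2 <;> ring
        rw [this, map_add, map_add (f n) (p E + q F), map_smul, smul_eq_mul]
        nlinarith
      · have : χ (F ⊔ D j) k = 1 := by rw [χ_apply]; exact if_pos (Or.inr hk)
        simp only [p, q, Prod.mk_add_mk, BoundedContinuousFunction.add_apply, this]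
        linarith [h0 E k]
    · obtain ⟨j, j1, j2⟩ := (((t (1 - χ E)).eventually (lt_mem_nhds h)).and (eps_sup hD E)).exists
      refine ⟨j, p (E ⊔ D j) + q F, ⟨add_mem_add (mem_range_self _) (mem_range_self _), ?_⟩,
        fun k hk => ?_⟩
      · have : p (E ⊔ D j) + q F = p E + q F + iY (χ (D j) * (1 - χ E)) +
            (eps (E ⊔ D j) - eps E) • ((0, 1, 0) : X) := by
          simp only [p, q, iY_apply, χ_sup, Prod.mk_add_mk, Prod.smul_mk, smul_eq_mul, smul_zero]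
          congr 2 <;> ring
        rw [this, map_add, map_add (f n) (p E + q F), map_smul, smul_eq_mul]
        nlinarith
      · have : χ (E ⊔ D j) k = 1 := by rw [χ_apply]; exact if_pos (Or.inr hk)
        simp only [p, q, Prod.mk_add_mk, BoundedContinuousFunction.add_apply, this]
        linarith [h0 F k])
  have h3 := h2 {x | 1 ≤ x.2.2 k} (fun n => by
    obtain ⟨D, ⟨x, x1, x2⟩, hD⟩ := hk n
    exact ⟨x, x2 k hD, x1⟩) (add_mem_add (mem_range_self ⊥) (mem_range_self ⊥))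
  have h4 := convex_halfSpace_ge (lin 0 (evalCLM ℝ k)).toLinearMap.isLinear 1
  have h5 : {x : X | 1 ≤ x.2.2 k} = {w | 1 ≤ (lin 0 (evalCLM ℝ k)).toLinearMap w} := by
    ext x; simp [lin_apply]
  have h7 : IsClosed {w | 1 ≤ (lin 0 (evalCLM ℝ k)).toLinearMap w} :=
    isClosed_le continuous_const (lin 0 (evalCLM ℝ k)).continuous
  rw [h5, h4.convexHull_eq, h7.closure_eq] at h3
  have h6 : χ ⊥ k = 0 := by rw [χ_apply, if_neg (show k ∉ (⊥ : Cl) from id)]
  simp [lin_apply, p, q, h6] at h3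
  linarith

def U : Set X := closure (convexHull ℝ (range r))

lemma U_convex : Convex ℝ U := (convex_convexHull ℝ _).closure

lemma r_mem (i : Cl ⊕ Cl) : r i ∈ U := subset_closure (subset_convexHull ℝ _ (mem_range_self i))

lemma U_scd : SCD U := scd_hull (R := 2) (fun i j => by
  linarith [norm_sub_le (r j) (r i), r_norm i, r_norm j]) r_exp

lemma U_bdd : Bornology.IsBounded U :=
  (Metric.isBounded_closedBall (x := (0 : X)) (r := 1)).subset (closure_minimal (convexHull_min (by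
    rintro _ ⟨i, rfl⟩; exact mem_closedBall_zero_iff.2 (r_norm i)) (convex_closedBall _ _))
    Metric.isClosed_closedBall)

lemma fiber_atom (E : Cl) : ((1, 0, χ E) : X) ∈ U ∧ ((0, 0, χ E) : X) ∈ U := by
  obtain ⟨D, d1, -, d3⟩ := split ⊤ univ_nonempty
  have hD : Function.Injective D := fun j l e => by
    obtain ⟨k, hk⟩ := d1 j
    exact d3 j l k hk (e ▸ hk)
  have t1 : Tendsto (fun j => eps (symmDiff E (D j))) atTop (𝓝 0) :=
    tendsto_one_div_add_atTop_nhds_zero_nat.comp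
      (idx_inj.comp ((symmDiff_right_injective E).comp hD)).nat_tendsto_atTop
  have e1 : ∀ j, χ (symmDiff E (D j)) = χ E + χ (D j) * (1 - χ E - χ E) := by
    intro j
    ext k
    have : k ∈ symmDiff E (D j) ↔ (k ∈ E ∧ k ∉ D j) ∨ (k ∈ D j ∧ k ∉ E) := Iff.rfl
    by_cases a : k ∈ E <;> by_cases b : k ∈ D j <;> simp [χ_apply, this, a, b]
  have key : ∀ (τ s : ℝ) (ψ : X →L[ℝ] ℝ), Tendsto
      (fun j => ψ (τ, s * eps (symmDiff E (D j)), χ (symmDiff E (D j)))) atTop (𝓝 (ψ (τ, 0, χ E))) := by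
    intro τ s ψ
    have t2 := ((wnull d3 (1 - χ E - χ E) (ψ.comp iY)).const_add (ψ (τ, 0, χ E))).add
      (t1.mul_const (ψ (0, s, 0)))
    simp only [add_zero, zero_mul] at t2
    refine t2.congr fun j => ?_
    rw [ContinuousLinearMap.comp_apply, ← smul_eq_mul (eps _), ← map_smul, ← map_add, ← map_add, e1]
    simp [iY_apply, mul_comm]
  exact ⟨weak_mem U_convex isClosed_closure (fun j => by simpa [r, p] using r_mem (.inl _)) (key 1 1),
    weak_mem U_convex isClosed_closure (fun j => by simpa [r, q] using r_mem (.inr _)) (key 0 (-1))⟩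

def B0 : Set Y := convexHull ℝ (range χ)

lemma fiber {τ : ℝ} (h : ∀ E, ((τ, 0, χ E) : X) ∈ U) : ∀ z ∈ B0, ((τ, 0, z) : X) ∈ U := by
  refine convexHull_min (t := {z | ((τ, 0, z) : X) ∈ U}) (by rintro _ ⟨E, rfl⟩; exact h E) ?_
  intro x hx y hy a b ha hb hab
  have := U_convex hx hy ha hb hab
  simp only [Prod.smul_mk, Prod.mk_add_mk, smul_eq_mul, ← add_mul, hab, one_mul] at this
  exact this

lemma B0_T (D : Cl) : ∀ z ∈ B0, z + χ D * (1 - z) ∈ B0 := by
  refine convexHull_min (t := {z | z + χ D * (1 - z) ∈ B0}) ?_ ?_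
  · rintro _ ⟨E, rfl⟩
    show χ E + χ D * (1 - χ E) ∈ B0
    rw [← χ_sup]
    exact subset_convexHull ℝ _ (mem_range_self _)
  · intro x hx y hy a b ha hb hab
    have := convex_convexHull ℝ (range χ) hx hy ha hb hab
    obtain rfl : b = 1 - a := by linarith
    show _ + χ D * (1 - _) ∈ convexHull ℝ (range χ)
    convert! this using 1
    ext k; simp; ring

lemma B0_nonneg : ∀ z ∈ B0, ∀ k, 0 ≤ z k := by
  intro z hz k
  refine convexHull_min (t := {z : Y | 0 ≤ z k}) ?_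
    (convex_halfSpace_ge (evalCLM ℝ k).toLinearMap.isLinear 0) hz
  rintro _ ⟨E, rfl⟩
  show 0 ≤ χ E k
  rw [χ_apply]; split_ifs <;> norm_num

lemma hull_side {g : Cl → X} {τ s : ℝ} (hg : ∀ E, g E = (τ, s * eps E, χ E)) (hs : s * s = 1) :
    ∀ x ∈ convexHull ℝ (range g), x.1 = τ ∧ 0 ≤ s * x.2.1 ∧ x.2.2 ∈ B0 := by
  refine convexHull_min (t := {x : X | x.1 = τ ∧ 0 ≤ s * x.2.1 ∧ x.2.2 ∈ B0}) ?_ ?_
  · rintro _ ⟨E, rfl⟩
    rw [hg]
    exact ⟨rfl, by simp only [← mul_assoc, hs, one_mul]; exact (eps_pos E).le,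
      subset_convexHull ℝ _ (mem_range_self _)⟩
  · rintro x ⟨x1, x2, x3⟩ y ⟨y1, y2, y3⟩ a b ha hb hab
    refine ⟨?_, ?_, convex_convexHull ℝ (range χ) x3 y3 ha hb hab⟩
    · simp [x1, y1, ← add_mul, hab]
    · simp only [Prod.snd_add, Prod.smul_snd, Prod.fst_add, Prod.smul_fst, smul_eq_mul]
      nlinarith [mul_nonneg ha x2, mul_nonneg hb y2]

lemma flex {x : X} (hx : x ∈ convexHull ℝ (range r)) (h1 : 1 / 3 < x.1) (h2 : x.1 < 2 / 3) :
    ∃ h : Y, ∀ D : Cl, x + iY (χ D * h) ∈ U ∧ ∀ k ∈ D, 1 / 3 < (x + iY (χ D * h)).2.2 k := by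
  rw [r, Sum.elim_range, convexHull_union (range_nonempty p) (range_nonempty q)] at hx
  obtain ⟨⟨t1, s1, z1⟩, hu, ⟨t2, s2, z2⟩, hv, a, b, ha, hb, hab, rfl⟩ := mem_convexJoin.1 hx
  obtain ⟨rfl, u2, u3⟩ := hull_side (s := 1) (τ := 1) (fun E => by simp [p]) (by norm_num) _ hu
  obtain ⟨rfl, v2, v3⟩ := hull_side (s := -1) (τ := 0) (fun E => by simp [q]) (by norm_num) _ hv
  have hu' : ((1, s1, z1) : X) ∈ U := subset_closure (convexHull_mono (by
    rintro _ ⟨E, rfl⟩; exact mem_range_self (f := r) (.inl E)) hu)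
  have hv' : ((0, s2, z2) : X) ∈ U := subset_closure (convexHull_mono (by
    rintro _ ⟨E, rfl⟩; exact mem_range_self (f := r) (.inr E)) hv)
  simp only [Prod.smul_mk, Prod.mk_add_mk, smul_eq_mul, mul_one, mul_zero, add_zero, one_mul,
    neg_one_mul] at *
  have seg : ∀ {τ s s' : ℝ} {z : Y}, ((τ, s, z) : X) ∈ U → ((τ, 0, z) : X) ∈ U → s' ∈ segment ℝ s 0 →
      ((τ, s', z) : X) ∈ U := by
    rintro τ s _ z k1 k2 ⟨c, d, hc, hd, hcd, rfl⟩
    have := U_convex k1 k2 hc hd hcd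
    simp only [Prod.smul_mk, Prod.mk_add_mk, ← add_smul, hcd, one_smul] at this
    exact this
  have ha0 : 0 < a := by linarith
  have hb0 : 0 < b := by linarith
  rcases le_total 0 (a * s1 + b * s2) with g | g
  · refine ⟨b • (1 - z2), fun D => ⟨?_, fun k hk => ?_⟩⟩
    · have k1 := seg (s' := (a * s1 + b * s2) / a) hu' (fiber (fun E => (fiber_atom E).1) _ u3) (by
        rw [segment_symm, segment_eq_Icc u2]
        exact ⟨by positivity, by rw [div_le_iff₀ ha0]; nlinarith⟩)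
      have k2 := fiber (fun E => (fiber_atom E).2) _ (B0_T D _ v3)
      convert! U_convex k1 k2 ha hb hab using 1
      simp only [iY_apply, Prod.smul_mk, Prod.mk_add_mk, smul_eq_mul, mul_div_cancel₀ _ ha0.ne']
      refine Prod.ext (by simp) (Prod.ext (by simp) ?_)
      ext k; simp; ring
    · have := B0_nonneg _ u3 k
      simp [iY_apply, χ_apply, hk]
      nlinarith
  · refine ⟨a • (1 - z1), fun D => ⟨?_, fun k hk => ?_⟩⟩
    · have k1 := seg (s' := (a * s1 + b * s2) / b) hv' (fiber (fun E => (fiber_atom E).2) _ v3) (by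
        rw [segment_eq_Icc (by linarith)]
        exact ⟨by rw [le_div_iff₀ hb0]; nlinarith, div_nonpos_of_nonpos_of_nonneg g hb⟩)
      have k2 := fiber (fun E => (fiber_atom E).1) _ (B0_T D _ u3)
      convert! U_convex k2 k1 ha hb hab using 1
      simp only [iY_apply, Prod.smul_mk, Prod.mk_add_mk, smul_eq_mul, mul_div_cancel₀ _ hb0.ne']
      refine Prod.ext (by simp) (Prod.ext (by simp) ?_)
      ext k; simp; ring
    · have := B0_nonneg _ v3 k
      simp [iY_apply, χ_apply, hk]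
      nlinarith

theorem no_base (O : ℕ → Set (WeakSpace ℝ X)) (h1 : ∀ n, IsOpen (O n))
    (h2 : ∀ n, ∃ x ∈ U, toWeakSpace ℝ X x ∈ O n) : ∃ V : Set (WeakSpace ℝ X), IsOpen V ∧
      (∃ x ∈ U, toWeakSpace ℝ X x ∈ V) ∧ ∀ n, ∃ x ∈ U, toWeakSpace ℝ X x ∈ O n ∧
        toWeakSpace ℝ X x ∉ V := by
  obtain ⟨k, hk⟩ := pick (fun n D => (∀ x ∈ U, toWeakSpace ℝ X x ∈ O n → 1 / 3 < x.1 ∧ x.1 < 2 / 3) →
      ∃ x ∈ U, toWeakSpace ℝ X x ∈ O n ∧ ∀ k ∈ D, 1 / 3 < x.2.2 k) (by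
    intro n D hD
    by_cases H : ∀ x ∈ U, toWeakSpace ℝ X x ∈ O n → 1 / 3 < x.1 ∧ x.1 < 2 / 3
    swap
    · exact ⟨0, fun h => absurd h H⟩
    obtain ⟨x0, x1, x2⟩ := h2 n
    obtain ⟨x, x3, x4⟩ := mem_closure_iff.1 x1 _ ((h1 n).preimage (toWeakSpaceCLM ℝ X).continuous) x2
    obtain ⟨k1, k2⟩ := H x (subset_closure x4) x3
    obtain ⟨h, hh⟩ := flex x4 k1 k2
    have t : Tendsto (fun j => toWeakSpace ℝ X (x + iY (χ (D j) * h))) atTop
        (𝓝 (toWeakSpace ℝ X x)) := by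
      refine (WeakBilin.tendsto_iff_forall_eval_tendsto (topDualPairing ℝ X).flip
        (separatingDual_iff_injective.1 inferInstance)).2 fun ψ => ?_
      have := (wnull hD h (ψ.comp iY)).const_add (ψ x)
      rw [add_zero] at this
      refine this.congr fun j => ?_
      exact (map_add ψ _ _).symm
    obtain ⟨j, hj⟩ := (t.eventually ((h1 n).mem_nhds x3)).exists
    exact ⟨j, fun _ => ⟨_, (hh (D j)).1, hj, (hh (D j)).2⟩⟩)
  have c : ∀ ψ : X →L[ℝ] ℝ, Continuous fun y : WeakSpace ℝ X => ψ ((toWeakSpace ℝ X).symm y) :=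
    fun ψ => WeakBilin.eval_continuous (topDualPairing ℝ X).flip ψ
  refine ⟨{y | 1 / 3 < ((toWeakSpace ℝ X).symm y).1} ∩ {y | ((toWeakSpace ℝ X).symm y).1 < 2 / 3} ∩
    {y | lin 0 (evalCLM ℝ k) ((toWeakSpace ℝ X).symm y) < 1 / 3}, ?_, ?_, fun n => ?_⟩
  · exact ((isOpen_lt continuous_const (c (ContinuousLinearMap.fst ℝ ℝ _))).inter
      (isOpen_lt (c (ContinuousLinearMap.fst ℝ ℝ _)) continuous_const)).inter
      (isOpen_lt (c _) continuous_const)
  · have h6 : χ ⊥ k = 0 := by rw [χ_apply, if_neg (show k ∉ (⊥ : Cl) from id)]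
    refine ⟨_, U_convex (fiber_atom ⊥).1 (fiber_atom ⊥).2 (a := 1 / 2) (b := 1 / 2) (by norm_num)
      (by norm_num) (by norm_num), ?_⟩
    simp [lin_apply, h6]
    norm_num
  · by_contra! H
    obtain ⟨D, d1, d2⟩ := hk n
    obtain ⟨x, x1, x2, x3⟩ := d1 fun x a b => ⟨(H x a b).1.1, (H x a b).1.2⟩
    have := (H x x1 x2).2
    simp [lin_apply] at this
    linarith [x3 k d2]

end Pool.Agent.H.MP_94cdcb_an
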